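import Pool.Agent.BppPath.Main

namespace Pool.Agent.Results.MP_210cfe_lc.LogQueries

open BppPath

/-- There is an oracle `O` such that for every `c` some `L ∈ BPP_path^O` is not decided by any
deterministic machine with free access to `O`, running time `k 2 ^ (n ^ c) + k` and at most
`c log₂ n + c` queries to a set `K ∈ Σ₂ᵖ` relative to `O`. -/
theorem result : ∃ O : Lang, ∀ c : ℕ, ∃ L : Lang, InBPPpath O L ∧
    ∀ K : Lang, InSigma2 O K → ∀ (P : Prog) (k : ℕ),
      ¬ Decides P O K (fun n => k * 2 ^ (n ^ c) + k) (fun n => c * Nat.log 2 n + c) L :=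
  main

end Pool.Agent.Results.MP_210cfe_lc.LogQueries
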