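import Mathlib

/-!
# A separation of `BPP_path` (even of SBP) from `Σ₂` by trees that keep their promise on every oracle

Level `n` of the oracle is read as a set `x` of pairs `(u, a)`, `u, a ∈ (Z/p)^n`, with a prime
`p` between `16 n` and `32 n`.  The set is `Bad` if it is not single valued or breaks the rule of
affine interpolation along an axis parallel line (each violation is seen by at most three queries).
A set which is not bad is either a full graph of a multi-affine function (`p^n` elements) or has at
most `p^n - (p-1)^n ≤ p^n / 16` elements (`grid_gap`).  So counting paths decides the total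
predicate `Val x`: bad or full.  On the other hand the common part of two or more graphs of
multi-affine functions is neither bad nor full, and a conjunction of clauses of width `w` which
rejects all these common parts accepts at most `w^(2^n)` of the `(p^n)^(2^n)` graphs (`core`).
-/

open Filter

namespace Pool.Agent.Results.MP_210cfe_lc.RobustSeparation

/-- An oracle: a set of finite binary strings. -/
abbrev Oracle : Type := List Bool → Bool

/-- Nondeterministic oracle computation trees. -/
inductive NTree : Type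
  | leaf (accept : Bool) : NTree
  | guess (t₀ t₁ : NTree) : NTree
  | query (s : List Bool) (t₀ t₁ : NTree) : NTree

namespace NTree

/-- The running time: a guess costs `1`, a query of a string `s` costs `|s| + 1`. -/
def time : NTree → ℕ
  | leaf _ => 0
  | guess t₀ t₁ => 1 + max t₀.time t₁.time
  | query s t₀ t₁ => s.length + 1 + max t₀.time t₁.time

/-- The number of computation paths with oracle `A` that end with the verdict `b`. -/
def count (A : Oracle) (b : Bool) : NTree → ℕ
  | leaf c => if c = b then 1 else 0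
  | guess t₀ t₁ => t₀.count A b + t₁.count A b
  | query s t₀ t₁ => if A s = true then t₁.count A b else t₀.count A b

/-- the number of accepting paths -/
def acc (t : NTree) (A : Oracle) : ℕ := t.count A true

/-- the number of rejecting paths -/
def rej (t : NTree) (A : Oracle) : ℕ := t.count A false

/-- the total number of paths -/
def total (t : NTree) (A : Oracle) : ℕ := t.acc A + t.rej A

end NTree

/-- The universal phase of a `Σ₂` computation. -/
inductive UTree : Type
  | leaf (accept : Bool) : UTree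
  | all (t₀ t₁ : UTree) : UTree
  | query (s : List Bool) (t₀ t₁ : UTree) : UTree

namespace UTree

/-- The depth: every branching and every query counts `1`, whatever the length of the query. -/
def depth : UTree → ℕ
  | leaf _ => 0
  | all t₀ t₁ => 1 + max t₀.depth t₁.depth
  | query _ t₀ t₁ => 1 + max t₀.depth t₁.depth

/-- acceptance with oracle `A` -/
def Accepts (A : Oracle) : UTree → Prop
  | leaf c => c = true
  | all t₀ t₁ => t₀.Accepts A ∧ t₁.Accepts A
  | query s t₀ t₁ => if A s = true then t₁.Accepts A else t₀.Accepts A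

end UTree

/-- `Σ₂` oracle computation trees: an existential phase followed by a universal phase. -/
inductive S2Tree : Type
  | universal (t : UTree) : S2Tree
  | ex (t₀ t₁ : S2Tree) : S2Tree
  | query (s : List Bool) (t₀ t₁ : S2Tree) : S2Tree

namespace S2Tree

/-- The depth: every branching and every query counts `1`, whatever the length of the query. -/
def depth : S2Tree → ℕ
  | universal t => t.depth
  | ex t₀ t₁ => 1 + max t₀.depth t₁.depth
  | query _ t₀ t₁ => 1 + max t₀.depth t₁.depth

/-- acceptance with oracle `A` -/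
def Accepts (A : Oracle) : S2Tree → Prop
  | universal t => t.Accepts A
  | ex t₀ t₁ => t₀.Accepts A ∨ t₁.Accepts A
  | query s t₀ t₁ => if A s = true then t₁.Accepts A else t₀.Accepts A

end S2Tree

/-! ### Certificates -/

/-- Failure of `Ψ` is certified by at most `w` oracle answers. -/
def CoCert (w : ℕ) (Ψ : Oracle → Prop) : Prop :=
  ∀ A, ¬ Ψ A → ∃ R : Finset (List Bool), R.card ≤ w ∧ ∀ A', (∀ s ∈ R, A' s = A s) → ¬ Ψ A'

theorem CoCert.mono {w w' : ℕ} {Ψ : Oracle → Prop} (h : CoCert w Ψ) (hw : w ≤ w') :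
    CoCert w' Ψ := by
  intro A hA
  obtain ⟨R, hR, h2⟩ := h A hA
  exact ⟨R, hR.trans hw, h2⟩

theorem UTree.coCert (t : UTree) : CoCert t.depth (fun A => t.Accepts A) := by
  induction t with
  | leaf c =>
    intro A hA
    exact ⟨∅, by simp, fun A' _ => hA⟩
  | all t₀ t₁ ih₀ ih₁ =>
    intro A hA
    have hA' : ¬ t₀.Accepts A ∨ ¬ t₁.Accepts A := by
      by_contra hc
      push Not at hc
      exact hA hc
    rcases hA' with h | h
    · obtain ⟨R, hR, h2⟩ := ih₀ A h
      refine ⟨R, ?_, ?_⟩
      · have := le_max_left t₀.depth t₁.depth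
        simp only [UTree.depth]; omega
      · intro A' hA' hacc
        exact h2 A' hA' hacc.1
    · obtain ⟨R, hR, h2⟩ := ih₁ A h
      refine ⟨R, ?_, ?_⟩
      · have := le_max_right t₀.depth t₁.depth
        simp only [UTree.depth]; omega
      · intro A' hA' hacc
        exact h2 A' hA' hacc.2
  | query s t₀ t₁ ih₀ ih₁ =>
    intro A hA
    by_cases hs : A s = true
    · have h : ¬ t₁.Accepts A := by
        intro hc; apply hA; simp only [UTree.Accepts, hs, if_true]; exact hc
      obtain ⟨R, hR, h2⟩ := ih₁ A h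
      refine ⟨insert s R, ?_, ?_⟩
      · have := le_max_right t₀.depth t₁.depth
        have := Finset.card_insert_le s R
        simp only [UTree.depth]; omega
      · intro A' hA' hacc
        have e1 : A' s = true := by rw [hA' s (Finset.mem_insert_self s R), hs]
        simp only [UTree.Accepts, e1, if_true] at hacc
        exact h2 A' (fun r hr => hA' r (Finset.mem_insert_of_mem hr)) hacc
    · have h : ¬ t₀.Accepts A := by
        intro hc; apply hA; simp only [UTree.Accepts, hs]; exact hc
      obtain ⟨R, hR, h2⟩ := ih₀ A h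
      refine ⟨insert s R, ?_, ?_⟩
      · have := le_max_left t₀.depth t₁.depth
        have := Finset.card_insert_le s R
        simp only [UTree.depth]; omega
      · intro A' hA' hacc
        have e1 : ¬ A' s = true := by rw [hA' s (Finset.mem_insert_self s R)]; exact hs
        simp only [UTree.Accepts, e1] at hacc
        exact h2 A' (fun r hr => hA' r (Finset.mem_insert_of_mem hr)) hacc

theorem S2Tree.decompose (t : S2Tree) :
    ∀ w : ℕ, 1 ≤ w → t.depth ≤ w → ∃ L : List (Oracle → Prop), L.length ≤ 2 ^ t.depth ∧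
      (∀ Ψ ∈ L, CoCert w Ψ) ∧ ∀ A, t.Accepts A ↔ ∃ Ψ ∈ L, Ψ A := by
  induction t with
  | universal t =>
    intro w h1 hw
    refine ⟨[fun A => t.Accepts A], ?_, ?_, ?_⟩
    · simpa using Nat.one_le_two_pow
    · intro Ψ hΨ
      rw [List.mem_singleton] at hΨ
      rw [hΨ]
      exact t.coCert.mono hw
    · intro A
      simp [S2Tree.Accepts]
  | ex t₀ t₁ ih₀ ih₁ =>
    intro w h1 hw
    have hm0 := le_max_left t₀.depth t₁.depth
    have hm1 := le_max_right t₀.depth t₁.depth
    simp only [S2Tree.depth] at hw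
    obtain ⟨L₀, a₀, b₀, c₀⟩ := ih₀ w h1 (by omega)
    obtain ⟨L₁, a₁, b₁, c₁⟩ := ih₁ w h1 (by omega)
    refine ⟨L₀ ++ L₁, ?_, ?_, ?_⟩
    · rw [List.length_append]
      simp only [S2Tree.depth]
      rw [pow_add, pow_one]
      have e0 : 2 ^ t₀.depth ≤ 2 ^ (max t₀.depth t₁.depth) := Nat.pow_le_pow_right (by norm_num) hm0
      have e1 : 2 ^ t₁.depth ≤ 2 ^ (max t₀.depth t₁.depth) := Nat.pow_le_pow_right (by norm_num) hm1
      omega
    · intro Ψ hΨ
      rcases List.mem_append.mp hΨ with h | h
      · exact b₀ Ψ h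
      · exact b₁ Ψ h
    · intro A
      simp only [S2Tree.Accepts, c₀, c₁, List.mem_append]
      constructor
      · rintro (⟨Ψ, h, h'⟩ | ⟨Ψ, h, h'⟩)
        · exact ⟨Ψ, Or.inl h, h'⟩
        · exact ⟨Ψ, Or.inr h, h'⟩
      · rintro ⟨Ψ, h | h, h'⟩
        · exact Or.inl ⟨Ψ, h, h'⟩
        · exact Or.inr ⟨Ψ, h, h'⟩
  | query s t₀ t₁ ih₀ ih₁ =>
    intro w h1 hw
    have hm0 := le_max_left t₀.depth t₁.depth
    have hm1 := le_max_right t₀.depth t₁.depth
    simp only [S2Tree.depth] at hw
    obtain ⟨L₀, a₀, b₀, c₀⟩ := ih₀ w h1 (by omega)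
    obtain ⟨L₁, a₁, b₁, c₁⟩ := ih₁ w h1 (by omega)
    refine ⟨L₀.map (fun Ψ => fun A => ¬ A s = true ∧ Ψ A) ++
      L₁.map (fun Ψ => fun A => A s = true ∧ Ψ A), ?_, ?_, ?_⟩
    · rw [List.length_append, List.length_map, List.length_map]
      simp only [S2Tree.depth]
      have e0 : 2 ^ t₀.depth ≤ 2 ^ (max t₀.depth t₁.depth) := Nat.pow_le_pow_right (by norm_num) hm0
      have e1 : 2 ^ t₁.depth ≤ 2 ^ (max t₀.depth t₁.depth) := Nat.pow_le_pow_right (by norm_num) hm1
      rw [pow_add, pow_one]
      omega
    · intro Ψ hΨ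
      rcases List.mem_append.mp hΨ with h | h
      · obtain ⟨Ψ', hΨ', rfl⟩ := List.mem_map.mp h
        intro A hA
        by_cases hs : A s = true
        · refine ⟨{s}, by simpa using h1, ?_⟩
          intro A' hA' hc
          exact hc.1 (by rw [hA' s (Finset.mem_singleton_self s)]; exact hs)
        · have : ¬ Ψ' A := fun hc => hA ⟨hs, hc⟩
          obtain ⟨R, hR, h2⟩ := b₀ Ψ' hΨ' A this
          exact ⟨R, hR, fun A' hA' hc => h2 A' hA' hc.2⟩
      · obtain ⟨Ψ', hΨ', rfl⟩ := List.mem_map.mp h
        intro A hA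
        by_cases hs : A s = true
        · have : ¬ Ψ' A := fun hc => hA ⟨hs, hc⟩
          obtain ⟨R, hR, h2⟩ := b₁ Ψ' hΨ' A this
          exact ⟨R, hR, fun A' hA' hc => h2 A' hA' hc.2⟩
        · refine ⟨{s}, by simpa using h1, ?_⟩
          intro A' hA' hc
          exact hs (by rw [← hA' s (Finset.mem_singleton_self s)]; exact hc.1)
    · intro A
      simp only [S2Tree.Accepts, List.mem_append, List.mem_map]
      by_cases hs : A s = true
      · simp only [hs, if_true, c₁]
        constructor
        · rintro ⟨Ψ, h, h'⟩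
          exact ⟨_, Or.inr ⟨Ψ, h, rfl⟩, hs, h'⟩
        · rintro ⟨Ψ, ⟨Ψ', h, rfl⟩ | ⟨Ψ', h, rfl⟩, h'⟩
          · exact absurd hs h'.1
          · exact ⟨Ψ', h, h'.2⟩
      · simp only [hs, c₀]
        constructor
        · rintro ⟨Ψ, h, h'⟩
          exact ⟨_, Or.inl ⟨Ψ, h, rfl⟩, hs, h'⟩
        · rintro ⟨Ψ, ⟨Ψ', h, rfl⟩ | ⟨Ψ', h, rfl⟩, h'⟩
          · exact ⟨Ψ', h, h'.2⟩
          · exact absurd h'.1 hs


/-! ### The grid gap lemma -/

theorem grid_gap {K : Type*} [Fintype K] [DecidableEq K] :
    ∀ (v : ℕ) (D : Finset (Fin v → K)),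
      (∀ (u : Fin v → K) (i : Fin v) (s t τ : K), s ≠ t → Function.update u i s ∈ D →
        Function.update u i t ∈ D → Function.update u i τ ∈ D) →
      D ≠ Finset.univ → (Fintype.card K - 1) ^ v ≤ Dᶜ.card := by
  intro v
  induction v with
  | zero =>
    intro D _ hne
    rw [pow_zero]
    apply Finset.card_pos.mpr
    rw [Finset.nonempty_iff_ne_empty]
    intro h
    exact hne (by rw [← compl_compl D, h]; simp)
  | succ v ih =>
    intro D hD hne
    classical
    obtain ⟨h, hh⟩ : ∃ h, h ∉ D := by
      by_contra hc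
      push Not at hc
      exact hne (Finset.eq_univ_iff_forall.mpr hc)
    set h' : Fin v → K := Fin.tail h with hh'
    have hcons : (Fin.cons (h 0) h' : Fin (v + 1) → K) = h := Fin.cons_self_tail h
    set Good : Finset K := Finset.univ.filter
      (fun t => (Fin.cons t h' : Fin (v + 1) → K) ∉ D) with hGood
    have hupd0 : ∀ s t : K, Function.update (Fin.cons t h' : Fin (v + 1) → K) 0 s
        = (Fin.cons s h' : Fin (v + 1) → K) := by
      intro s t
      exact Fin.update_cons_zero (α := fun _ => K) t h' s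
    have hGoodc : Goodᶜ.card ≤ 1 := by
      rw [Finset.card_le_one]
      intro s hs t ht
      rw [Finset.mem_compl, hGood, Finset.mem_filter, not_and, not_not] at hs ht
      have hs' := hs (Finset.mem_univ _)
      have ht' := ht (Finset.mem_univ _)
      by_contra hst
      apply hh
      rw [← hcons, ← hupd0 (h 0) s]
      apply hD _ _ s t _ hst
      · rw [hupd0]; exact hs'
      · rw [hupd0]; exact ht'
    have hGoodcard : Fintype.card K - 1 ≤ Good.card := by
      have := Finset.card_add_card_compl Good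
      omega
    set Sl : K → Finset (Fin v → K) := fun t => Finset.univ.filter
      (fun u' => (Fin.cons t u' : Fin (v + 1) → K) ∈ D) with hSl
    have hSlD : ∀ t ∈ Good, (Fintype.card K - 1) ^ v ≤ (Sl t)ᶜ.card := by
      intro t ht
      apply ih
      · intro u i a b τ hab h1 h2
        simp only [hSl, Finset.mem_filter, Finset.mem_univ, true_and] at h1 h2 ⊢
        rw [Fin.cons_update] at h1 h2 ⊢
        exact hD _ _ a b _ hab h1 h2
      · intro hu
        have : h' ∈ Sl t := by rw [hu]; exact Finset.mem_univ _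
        simp only [hSl, Finset.mem_filter, Finset.mem_univ, true_and] at this
        simp only [hGood, Finset.mem_filter, Finset.mem_univ, true_and] at ht
        exact ht this
    have hcard : (Good.sigma (fun t => (Sl t)ᶜ)).card ≤ Dᶜ.card := by
      apply Finset.card_le_card_of_injOn (fun z => (Fin.cons z.1 z.2 : Fin (v + 1) → K))
      · intro z hz
        have hz' := Finset.mem_sigma.mp (Finset.mem_coe.mp hz)
        have h2 := hz'.2
        simp only [hSl, Finset.mem_compl, Finset.mem_filter, Finset.mem_univ, true_and] at h2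
        exact Finset.mem_coe.mpr (Finset.mem_compl.mpr h2)
      · rintro ⟨t, u⟩ _ ⟨t', u'⟩ _ heq
        have heq' : (Fin.cons t u : Fin (v + 1) → K) = Fin.cons t' u' := heq
        rw [Fin.cons_inj] at heq'
        obtain ⟨rfl, rfl⟩ := heq'
        rfl
    calc (Fintype.card K - 1) ^ (v + 1) = (Fintype.card K - 1) * (Fintype.card K - 1) ^ v := by
          rw [pow_succ, mul_comm]
      _ ≤ Good.card * (Fintype.card K - 1) ^ v := Nat.mul_le_mul_right _ hGoodcard
      _ = ∑ t ∈ Good, (Fintype.card K - 1) ^ v := by rw [Finset.sum_const, smul_eq_mul]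
      _ ≤ ∑ t ∈ Good, (Sl t)ᶜ.card := Finset.sum_le_sum hSlD
      _ = (Good.sigma (fun t => (Sl t)ᶜ)).card := by rw [Finset.card_sigma]
      _ ≤ Dᶜ.card := hcard

/-! ### Locally inconsistent sets -/

section Local

variable {K : Type*} [Field K] [Fintype K] [DecidableEq K] {v m : ℕ}

/-- `x ⊆ K^v × K^m` is locally inconsistent: it is not single valued, or it breaks the rule of
affine interpolation along an axis parallel line. -/
def Bad (x : Set ((Fin v → K) × (Fin m → K))) : Prop :=
  (∃ (u : Fin v → K) (a b : Fin m → K), a ≠ b ∧ (u, a) ∈ x ∧ (u, b) ∈ x) ∨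
  (∃ (u : Fin v → K) (i : Fin v) (s t r : K) (a b : Fin m → K),
    (Function.update u i s, a) ∈ x ∧ (Function.update u i t, b) ∈ x ∧
    (Function.update u i (s + r * (t - s)), a + r • (b - a)) ∉ x)

theorem card_of_not_bad (x : Finset ((Fin v → K) × (Fin m → K)))
    (hx : ¬ Bad (x : Set ((Fin v → K) × (Fin m → K)))) :
    ((∀ u, ∃ a, (u, a) ∈ x) ∧ x.card = Fintype.card K ^ v) ∨
      ((¬ ∀ u, ∃ a, (u, a) ∈ x) ∧ x.card + (Fintype.card K - 1) ^ v ≤ Fintype.card K ^ v) := by
  classical
  have hcard : (x.image Prod.fst).card = x.card := by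
    apply Finset.card_image_of_injOn
    rintro ⟨u, a⟩ h1 ⟨u', b⟩ h2 huu
    have huu' : u = u' := huu
    subst huu'
    by_contra hne
    exact hx (Or.inl ⟨u, a, b, fun hab => hne (by rw [hab]), h1, h2⟩)
  by_cases hD : x.image Prod.fst = Finset.univ
  · left
    refine ⟨?_, ?_⟩
    · intro u
      have : u ∈ x.image Prod.fst := by rw [hD]; exact Finset.mem_univ u
      obtain ⟨⟨u', a⟩, h1, h2⟩ := Finset.mem_image.mp this
      have h2' : u' = u := h2
      subst h2'
      exact ⟨a, h1⟩
    · rw [← hcard, hD, Finset.card_univ, Fintype.card_fun, Fintype.card_fin]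
  · right
    refine ⟨?_, ?_⟩
    · intro hall
      apply hD
      rw [Finset.eq_univ_iff_forall]
      intro u
      obtain ⟨a, ha⟩ := hall u
      exact Finset.mem_image.mpr ⟨_, ha, rfl⟩
    have hgap := grid_gap v (x.image Prod.fst) ?_ hD
    · have := Finset.card_add_card_compl (x.image Prod.fst)
      rw [Fintype.card_fun, Fintype.card_fin] at this
      omega
    · intro u i s t τ hst h1 h2
      obtain ⟨⟨u1, a⟩, ha, hu1⟩ := Finset.mem_image.mp h1
      obtain ⟨⟨u2, b⟩, hb, hu2⟩ := Finset.mem_image.mp h2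
      simp only at hu1 hu2
      subst hu1
      subst hu2
      by_contra hc
      apply hx
      right
      refine ⟨u, i, s, t, (τ - s) / (t - s), a, b, ha, hb, ?_⟩
      intro hmem
      apply hc
      have hts : t - s ≠ 0 := sub_ne_zero.mpr (Ne.symm hst)
      have e : s + (τ - s) / (t - s) * (t - s) = τ := by
        rw [div_mul_cancel₀ _ hts]; ring
      rw [e] at hmem
      exact Finset.mem_image.mpr ⟨_, hmem, rfl⟩

/-! ### Multi-affine functions -/

/-- the multilinear monomial -/
def mono (T : Finset (Fin v)) (u : Fin v → K) : K := ∏ j ∈ T, u j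

/-- the multi-affine function with coefficient vector `c` -/
def ev (c : Finset (Fin v) → Fin m → K) (u : Fin v → K) : Fin m → K :=
  ∑ T : Finset (Fin v), mono T u • c T

theorem mono_update (T : Finset (Fin v)) (u : Fin v → K) (i : Fin v) (s t r : K) :
    mono T (Function.update u i (s + r * (t - s))) =
      mono T (Function.update u i s) +
        r * (mono T (Function.update u i t) - mono T (Function.update u i s)) := by
  unfold mono
  by_cases hi : i ∈ T
  · rw [Finset.prod_update_of_mem hi, Finset.prod_update_of_mem hi, Finset.prod_update_of_mem hi]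
    ring
  · rw [Finset.prod_update_of_notMem hi, Finset.prod_update_of_notMem hi,
      Finset.prod_update_of_notMem hi]
    ring

theorem ev_update (c : Finset (Fin v) → Fin m → K) (u : Fin v → K) (i : Fin v) (s t r : K) :
    ev c (Function.update u i (s + r * (t - s))) =
      ev c (Function.update u i s) +
        r • (ev c (Function.update u i t) - ev c (Function.update u i s)) := by
  unfold ev
  rw [← Finset.sum_sub_distrib, Finset.smul_sum, ← Finset.sum_add_distrib]
  apply Finset.sum_congr rfl
  intro T _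
  rw [mono_update, add_smul, mul_smul, sub_smul]

theorem ev_add (c d : Finset (Fin v) → Fin m → K) (u : Fin v → K) :
    ev (c + d) u = ev c u + ev d u := by
  unfold ev
  rw [← Finset.sum_add_distrib]
  apply Finset.sum_congr rfl
  intro T _
  rw [Pi.add_apply, smul_add]

theorem ev_sub (c d : Finset (Fin v) → Fin m → K) (u : Fin v → K) :
    ev (c - d) u = ev c u - ev d u := by
  unfold ev
  rw [← Finset.sum_sub_distrib]
  apply Finset.sum_congr rfl
  intro T _
  rw [Pi.sub_apply, smul_sub]

theorem mono_indicator (S T : Finset (Fin v)) :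
    mono S (fun j => if j ∈ T then (1 : K) else 0) = if S ⊆ T then 1 else 0 := by
  unfold mono
  by_cases h : S ⊆ T
  · rw [if_pos h]
    apply Finset.prod_eq_one
    intro j hj
    rw [if_pos (h hj)]
  · rw [if_neg h]
    obtain ⟨j, hj, hj'⟩ := Finset.not_subset.mp h
    exact Finset.prod_eq_zero hj (by rw [if_neg hj'])

theorem ev_eq_zero (d : Finset (Fin v) → Fin m → K) (hd : ∀ u, ev d u = 0) : d = 0 := by
  funext T
  induction T using Finset.strongInduction with
  | H T ih =>
    have h := hd (fun j => if j ∈ T then (1 : K) else 0)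
    unfold ev at h
    rw [Finset.sum_eq_single T] at h
    · rw [mono_indicator, if_pos (Finset.Subset.refl T), one_smul] at h
      exact h
    · intro S _ hST
      rw [mono_indicator]
      by_cases hS : S ⊆ T
      · rw [ih S (lt_of_le_of_ne hS hST)]
        simp
      · rw [if_neg hS, zero_smul]
    · intro hT
      exact absurd (Finset.mem_univ T) hT

theorem ev_injective (c d : Finset (Fin v) → Fin m → K) (h : ∀ u, ev c u = ev d u) : c = d := by
  have := ev_eq_zero (c - d) (fun u => by rw [ev_sub, h u, sub_self])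
  exact sub_eq_zero.mp this

/-- the graph of a multi-affine function -/
def graph (c : Finset (Fin v) → Fin m → K) : Set ((Fin v → K) × (Fin m → K)) :=
  {z | ev c z.1 = z.2}

/-- common part of the graphs of a family of multi-affine functions -/
def common (A : Finset (Finset (Fin v) → Fin m → K)) : Set ((Fin v → K) × (Fin m → K)) :=
  {z | ∀ c ∈ A, ev c z.1 = z.2}

theorem common_not_bad (A : Finset (Finset (Fin v) → Fin m → K)) (hA : A.Nonempty) :
    ¬ Bad (common A) := by
  obtain ⟨c₀, hc₀⟩ := hA
  rintro (⟨u, a, b, hab, h1, h2⟩ | ⟨u, i, s, t, r, a, b, h1, h2, h3⟩)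
  · exact hab ((h1 c₀ hc₀).symm.trans (h2 c₀ hc₀))
  · apply h3
    intro c hc
    have e1 : ev c (Function.update u i s) = a := h1 c hc
    have e2 : ev c (Function.update u i t) = b := h2 c hc
    show ev c (Function.update u i (s + r * (t - s))) = a + r • (b - a)
    rw [ev_update, e1, e2]

theorem graph_not_bad (c : Finset (Fin v) → Fin m → K) : ¬ Bad (graph c) := by
  have h := common_not_bad {c} (Finset.singleton_nonempty c)
  have e : common {c} = graph c := by
    ext z
    simp [common, graph]
  rwa [e] at h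

/-- the scalar perturbation `T ↦ d T • e` -/
def tens (d : Finset (Fin v) → K) (e : Fin m → K) : Finset (Fin v) → Fin m → K :=
  fun T => d T • e

theorem ev_tens (d : Finset (Fin v) → K) (e : Fin m → K) (u : Fin v → K) :
    ev (tens d e) u = (∑ T : Finset (Fin v), mono T u * d T) • e := by
  unfold ev tens
  rw [Finset.sum_smul]
  apply Finset.sum_congr rfl
  intro T _
  rw [mul_smul]

open Classical in
theorem fibre (U : Set (Fin v → K)) (c₀ c₁ c₂ : Finset (Fin v) → Fin m → K) (u : Fin v → K)
    (h1 : ∀ u' ∈ U, ev c₁ u' = ev c₀ u') (h2 : ∀ u' ∈ U, ev c₂ u' = ev c₀ u')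
    (hne : ev c₂ u ≠ ev c₁ u) :
    Fintype.card (Fin m → K) * (Finset.univ.filter (fun c : Finset (Fin v) → Fin m → K =>
        (∀ u' ∈ U, ev c u' = ev c₀ u') ∧ ev c u = ev c₁ u)).card ≤
      (Finset.univ.filter (fun c : Finset (Fin v) → Fin m → K =>
        ∀ u' ∈ U, ev c u' = ev c₀ u')).card := by
  obtain ⟨j, hj⟩ : ∃ j, ev c₂ u j - ev c₁ u j ≠ 0 := by
    by_contra hc
    push Not at hc
    exact hne (funext fun j => sub_eq_zero.mp (hc j))
  set z : K := ev c₂ u j - ev c₁ u j with hz
  set d : Finset (Fin v) → K := fun T => (c₂ T j - c₁ T j) * z⁻¹ with hd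
  have key : ∀ u', (∑ T : Finset (Fin v), mono T u' * d T) = (ev c₂ u' j - ev c₁ u' j) * z⁻¹ := by
    intro u'
    unfold ev
    rw [Finset.sum_apply, Finset.sum_apply, ← Finset.sum_sub_distrib, Finset.sum_mul]
    apply Finset.sum_congr rfl
    intro T _
    simp only [hd, Pi.smul_apply, smul_eq_mul]
    ring
  have key0 : ∀ u' ∈ U, ∀ e : Fin m → K, ev (tens d e) u' = 0 := by
    intro u' hu' e
    rw [ev_tens, key, h1 u' hu', h2 u' hu', sub_self, zero_mul, zero_smul]
  have key1 : ∀ e : Fin m → K, ev (tens d e) u = e := by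
    intro e
    rw [ev_tens, key, ← hz, mul_inv_cancel₀ hj, one_smul]
  rw [← Finset.card_univ, ← Finset.card_product]
  apply Finset.card_le_card_of_injOn (fun z => z.2 + tens d z.1)
  · rintro ⟨e, c⟩ hc
    have hc' := (Finset.mem_filter.mp (Finset.mem_product.mp (Finset.mem_coe.mp hc)).2).2
    apply Finset.mem_coe.mpr
    apply Finset.mem_filter.mpr
    refine ⟨Finset.mem_univ _, ?_⟩
    intro u' hu'
    show ev (c + tens d e) u' = ev c₀ u'
    rw [ev_add, key0 u' hu', add_zero]
    exact hc'.1 u' hu'
  · rintro ⟨e, c⟩ hc ⟨e', c'⟩ hc' heq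
    have hc1 := (Finset.mem_filter.mp (Finset.mem_product.mp (Finset.mem_coe.mp hc)).2).2
    have hc2 := (Finset.mem_filter.mp (Finset.mem_product.mp (Finset.mem_coe.mp hc')).2).2
    have heq' : c + tens d e = c' + tens d e' := heq
    have e1 : ev (c + tens d e) u = ev (c' + tens d e') u := by rw [heq']
    rw [ev_add, ev_add, key1, key1] at e1
    have e2 : ev c u = ev c' u := by
      rw [show ev c u = ev c₁ u from hc1.2, show ev c' u = ev c₁ u from hc2.2]
    rw [e2] at e1
    have e3 : e = e' := add_left_cancel e1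
    subst e3
    have e4 : c = c' := add_right_cancel heq'
    rw [e4]

open Classical in
theorem core (Φ : Set ((Fin v → K) × (Fin m → K)) → Prop) (w : ℕ) (hw : 1 ≤ w)
    (hcert : ∀ x, ¬ Φ x → ∃ R : Finset ((Fin v → K) × (Fin m → K)), R.card ≤ w ∧
      ∀ x', (∀ b ∈ R, (b ∈ x' ↔ b ∈ x)) → ¬ Φ x')
    (hfalse : ∀ A : Finset (Finset (Fin v) → Fin m → K), 1 < A.card → ¬ Φ (common A)) :
    ∀ (k : ℕ) (U : Set (Fin v → K)) (c₀ : Finset (Fin v) → Fin m → K),
      (Finset.univ.filter (fun c : Finset (Fin v) → Fin m → K =>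
        ∀ u' ∈ U, ev c u' = ev c₀ u')).card ≤ Fintype.card (Fin m → K) ^ k →
      (Finset.univ.filter (fun c : Finset (Fin v) → Fin m → K =>
        (∀ u' ∈ U, ev c u' = ev c₀ u') ∧ Φ (graph c))).card ≤ w ^ k := by
  intro k
  induction k with
  | zero =>
    intro U c₀ h
    rw [pow_zero] at h ⊢
    refine le_trans (Finset.card_le_card ?_) h
    intro c hc
    rw [Finset.mem_filter] at hc ⊢
    exact ⟨hc.1, hc.2.1⟩
  | succ k ih =>
    intro U c₀ h
    set A : Finset (Finset (Fin v) → Fin m → K) :=
      Finset.univ.filter (fun c => ∀ u' ∈ U, ev c u' = ev c₀ u') with hA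
    by_cases hA1 : A.card ≤ 1
    · refine le_trans (Finset.card_le_card ?_) (hA1.trans (Nat.one_le_pow _ _ hw))
      intro c hc
      rw [hA, Finset.mem_filter]
      rw [Finset.mem_filter] at hc
      exact ⟨hc.1, hc.2.1⟩
    · push Not at hA1
      obtain ⟨R, hR, hRc⟩ := hcert _ (hfalse A hA1)
      set F : (Fin v → K) × (Fin m → K) → Finset (Finset (Fin v) → Fin m → K) := fun b =>
        if b ∈ common A then ∅ else Finset.univ.filter (fun c =>
          (∀ u' ∈ U, ev c u' = ev c₀ u') ∧ ev c b.1 = b.2 ∧ Φ (graph c)) with hF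
      have hsub : (Finset.univ.filter (fun c : Finset (Fin v) → Fin m → K =>
          (∀ u' ∈ U, ev c u' = ev c₀ u') ∧ Φ (graph c))) ⊆ R.biUnion F := by
        intro c hc
        rw [Finset.mem_filter] at hc
        obtain ⟨_, hc1, hc2⟩ := hc
        have : ¬ ∀ b ∈ R, (b ∈ graph c ↔ b ∈ common A) := fun hcc => hRc _ hcc hc2
        push Not at this
        obtain ⟨b, hbR, hb⟩ := this
        rw [Finset.mem_biUnion]
        refine ⟨b, hbR, ?_⟩
        have hcA : c ∈ A := by rw [hA, Finset.mem_filter]; exact ⟨Finset.mem_univ _, hc1⟩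
        rcases hb with ⟨hb1, hb2⟩ | ⟨hb1, hb2⟩
        · simp only [hF, if_neg hb2, Finset.mem_filter]
          exact ⟨Finset.mem_univ _, hc1, hb1, hc2⟩
        · exact absurd (hb2 c hcA) hb1
      refine le_trans (Finset.card_le_card hsub) ?_
      rw [pow_succ, mul_comm]
      refine le_trans (Finset.card_biUnion_le_card_mul R F (w ^ k) ?_) (Nat.mul_le_mul_right _ hR)
      intro b _
      by_cases hb : b ∈ common A
      · simp only [hF, if_pos hb, Finset.card_empty]
        exact Nat.zero_le _
      · simp only [hF, if_neg hb]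
        by_cases hne : (Finset.univ.filter (fun c : Finset (Fin v) → Fin m → K =>
          (∀ u' ∈ U, ev c u' = ev c₀ u') ∧ ev c b.1 = b.2 ∧ Φ (graph c))).Nonempty
        · obtain ⟨c₁, hc₁⟩ := hne
          rw [Finset.mem_filter] at hc₁
          obtain ⟨_, hc1, hc1b, _⟩ := hc₁
          have hb' : ∃ c₂ ∈ A, ev c₂ b.1 ≠ b.2 := by
            by_contra hcc
            push Not at hcc
            exact hb hcc
          obtain ⟨c₂, hc₂A, hc₂⟩ := hb'
          rw [hA, Finset.mem_filter] at hc₂A
          have hfib := fibre U c₀ c₁ c₂ b.1 hc1 hc₂A.2 (by rw [hc1b]; exact hc₂)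
          obtain ⟨U', hU'⟩ : ∃ U' : Set (Fin v → K), U' = insert b.1 U := ⟨_, rfl⟩
          have hcard : (Finset.univ.filter (fun c : Finset (Fin v) → Fin m → K =>
              ∀ u' ∈ U', ev c u' = ev c₁ u')).card ≤ Fintype.card (Fin m → K) ^ k := by
            have hpos : 0 < Fintype.card (Fin m → K) := Fintype.card_pos
            have hsub2 : (Finset.univ.filter (fun c : Finset (Fin v) → Fin m → K =>
              ∀ u' ∈ U', ev c u' = ev c₁ u')) ⊆
              (Finset.univ.filter (fun c : Finset (Fin v) → Fin m → K =>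
                (∀ u' ∈ U, ev c u' = ev c₀ u') ∧ ev c b.1 = ev c₁ b.1)) := by
              intro c hc
              rw [Finset.mem_filter] at hc ⊢
              rw [hU'] at hc
              refine ⟨hc.1, fun u' hu' => ?_, hc.2 _ (Set.mem_insert _ _)⟩
              rw [hc.2 u' (Set.mem_insert_of_mem _ hu'), hc1 u' hu']
            have h3 := Finset.card_le_card hsub2
            have h4 := le_trans (Nat.mul_le_mul_left _ h3) (hfib.trans h)
            generalize (Finset.univ.filter (fun c : Finset (Fin v) → Fin m → K =>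
              ∀ u' ∈ U', ev c u' = ev c₁ u')).card = X at h4 ⊢
            generalize Fintype.card (Fin m → K) = q at h4 hpos ⊢
            rw [pow_succ'] at h4
            exact Nat.le_of_mul_le_mul_left h4 hpos
          refine le_trans (Finset.card_le_card ?_) (ih U' c₁ hcard)
          intro c hc
          rw [Finset.mem_filter] at hc ⊢
          refine ⟨hc.1, fun u' hu' => ?_, hc.2.2.2⟩
          rw [hU'] at hu'
          rcases Set.mem_insert_iff.mp hu' with rfl | hu''
          · rw [hc.2.2.1, hc1b]
          · rw [hc.2.1 u' hu'', hc1 u' hu'']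
        · rw [Finset.not_nonempty_iff_eq_empty] at hne
          rw [hne, Finset.card_empty]
          exact Nat.zero_le _

theorem core_top (Φ : Set ((Fin v → K) × (Fin m → K)) → Prop) (w : ℕ) (hw : 1 ≤ w)
    (hcert : ∀ x, ¬ Φ x → ∃ R : Finset ((Fin v → K) × (Fin m → K)), R.card ≤ w ∧
      ∀ x', (∀ b ∈ R, (b ∈ x' ↔ b ∈ x)) → ¬ Φ x')
    (hfalse : ∀ A : Finset (Finset (Fin v) → Fin m → K), 1 < A.card → ¬ Φ (common A)) (k : ℕ)
    (hk : Fintype.card (Finset (Fin v) → Fin m → K) ≤ Fintype.card (Fin m → K) ^ k)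
    (S : Finset (Finset (Fin v) → Fin m → K)) (hS : ∀ c ∈ S, Φ (graph c)) :
    S.card ≤ w ^ k := by
  classical
  obtain ⟨U, hU⟩ : ∃ U : Set (Fin v → K), U = ∅ := ⟨_, rfl⟩
  have h := core Φ w hw hcert hfalse k U 0 ((Finset.card_le_univ _).trans hk)
  refine le_trans (Finset.card_le_card ?_) h
  intro c hc
  simp only [Finset.mem_filter]
  refine ⟨Finset.mem_univ c, fun u' hu' => ?_, hS c hc⟩
  rw [hU] at hu'
  exact absurd hu' (Set.notMem_empty u')

end Local

/-! ### Coding positions by binary strings -/

section Code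

variable (p n : ℕ)

/-- the positions of the black box at level `n` -/
abbrev Pos : Type := (Fin n → ZMod p) × (Fin n → ZMod p)

/-- the coordinates of a position, as natural numbers -/
def coord (b : Pos p n) (i : ℕ) : ℕ :=
  if h : i < n then (b.1 ⟨i, h⟩).val
  else if h' : i - n < n then (b.2 ⟨i - n, h'⟩).val else 0

/-- the binary string naming a position: each of the `2n` coordinates is written in `p` bits,
with a single bit `1` at the place of its value -/
def code (b : Pos p n) : List Bool :=
  List.ofFn (fun k : Fin (2 * n * p) => decide (coord p n b (k / p) = k % p))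

theorem code_length (b : Pos p n) : (code p n b).length = 2 * n * p := by
  unfold code
  rw [List.length_ofFn]

theorem coord_lt [NeZero p] (b : Pos p n) (i : ℕ) : coord p n b i < p := by
  unfold coord
  split_ifs
  · exact ZMod.val_lt _
  · exact ZMod.val_lt _
  · exact Nat.pos_of_ne_zero (NeZero.ne p)

theorem code_injective [NeZero p] : Function.Injective (code p n) := by
  intro b b' hbb
  unfold code at hbb
  have h1 := List.ofFn_injective hbb
  have hp : 0 < p := Nat.pos_of_ne_zero (NeZero.ne p)
  have hcoord : ∀ i, i < 2 * n → coord p n b' i = coord p n b i := by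
    intro i hi
    have hj := coord_lt p n b i
    have hk : i * p + coord p n b i < 2 * n * p := by
      calc i * p + coord p n b i < i * p + p := by omega
        _ = (i + 1) * p := by ring
        _ ≤ 2 * n * p := Nat.mul_le_mul_right _ (by omega)
    have h2 := congrFun h1 ⟨i * p + coord p n b i, hk⟩
    have e1 : (i * p + coord p n b i) / p = i := by
      rw [mul_comm, Nat.mul_add_div hp, Nat.div_eq_of_lt hj, add_zero]
    have e2 : (i * p + coord p n b i) % p = coord p n b i := by
      rw [mul_comm, Nat.mul_add_mod, Nat.mod_eq_of_lt hj]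
    simp only [e1, e2, decide_true] at h2
    exact of_decide_eq_true h2.symm
  apply Prod.ext
  · funext i
    have h := hcoord i.val (by omega)
    unfold coord at h
    rw [dif_pos i.isLt, dif_pos i.isLt] at h
    exact (ZMod.val_injective p h).symm
  · funext i
    have h := hcoord (n + i.val) (by omega)
    unfold coord at h
    have h3 : ¬ (n + i.val < n) := by omega
    have h4 : n + i.val - n < n := by omega
    rw [dif_neg h3, dif_neg h3, dif_pos h4, dif_pos h4] at h
    have h5 := (ZMod.val_injective p h).symm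
    have h6 : (⟨n + i.val - n, h4⟩ : Fin n) = i := Fin.ext (by simp)
    rw [h6] at h5
    exact h5

/-- the black box at level `n` read off an oracle -/
def boxOf (A : Oracle) : Set (Pos p n) := {b | A (code p n b) = true}

open Classical in
/-- change the oracle `A₀` so that the black box at level `n` is `x` -/
noncomputable def patch (A₀ : Oracle) (x : Set (Pos p n)) : Oracle := fun s =>
  if ∃ b, code p n b = s then decide (∃ b ∈ x, code p n b = s) else A₀ s

theorem patch_code [NeZero p] (A₀ : Oracle) (x : Set (Pos p n)) (b : Pos p n) :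
    patch p n A₀ x (code p n b) = true ↔ b ∈ x := by
  unfold patch
  rw [if_pos ⟨b, rfl⟩]
  simp only [decide_eq_true_eq]
  constructor
  · rintro ⟨b', h1, h2⟩
    rwa [code_injective p n h2] at h1
  · intro h
    exact ⟨b, h, rfl⟩

theorem boxOf_patch [NeZero p] (A₀ : Oracle) (x : Set (Pos p n)) :
    boxOf p n (patch p n A₀ x) = x := by
  ext b
  exact patch_code p n A₀ x b

theorem patch_of_not (A₀ : Oracle) (x : Set (Pos p n)) (s : List Bool)
    (hs : s.length ≠ 2 * n * p) : patch p n A₀ x s = A₀ s := by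
  unfold patch
  rw [if_neg]
  rintro ⟨b, rfl⟩
  exact hs (code_length p n b)

/-- The total Boolean function at level `n`. -/
def Val [Fact p.Prime] (x : Set (Pos p n)) : Prop :=
  Bad x ∨ ∀ u, ∃ a, (u, a) ∈ x

theorem val_graph [Fact p.Prime] (c : Finset (Fin n) → Fin n → ZMod p) :
    Val p n (graph c) := Or.inr (fun u => ⟨ev c u, rfl⟩)

theorem not_val_common [Fact p.Prime] (A : Finset (Finset (Fin n) → Fin n → ZMod p))
    (hA : 1 < A.card) : ¬ Val p n (common A) := by
  obtain ⟨c₁, h1, c₂, h2, hne⟩ := Finset.one_lt_card.mp hA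
  rintro (h | h)
  · exact common_not_bad A ⟨c₁, h1⟩ h
  · apply hne
    apply ev_injective
    intro u
    obtain ⟨a, ha⟩ := h u
    exact (ha c₁ h1).trans (ha c₂ h2).symm

theorem lower [Fact p.Prime] (hn : 1 ≤ n) (hp : 4 ≤ p) (A₀ : Oracle) (t : S2Tree)
    (ht : t.depth < 2 ^ n) :
    ∃ x : Set (Pos p n), ¬ (t.Accepts (patch p n A₀ x) ↔ Val p n x) := by
  classical
  by_contra hcon
  push Not at hcon
  have h2n : 2 ≤ 2 ^ n := by
    calc 2 = 2 ^ 1 := by norm_num
      _ ≤ 2 ^ n := Nat.pow_le_pow_right (by norm_num) hn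
  set w : ℕ := 2 ^ n - 1 with hw
  have hw1 : 1 ≤ w := by omega
  obtain ⟨L, hL, hLc, hLe⟩ := t.decompose w hw1 (by omega)
  have hQ : Fintype.card (Fin n → ZMod p) = p ^ n := by
    rw [Fintype.card_fun, ZMod.card, Fintype.card_fin]
  have hC : Fintype.card (Finset (Fin n) → Fin n → ZMod p) = (p ^ n) ^ (2 ^ n) := by
    rw [Fintype.card_fun, hQ, Fintype.card_finset, Fintype.card_fin]
  -- each disjunct accepts few graphs
  have hfew : ∀ Ψ ∈ L, (Finset.univ.filter (fun c : Finset (Fin n) → Fin n → ZMod p =>
      Ψ (patch p n A₀ (graph c)))).card ≤ w ^ (2 ^ n) := by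
    intro Ψ hΨ
    refine core_top (K := ZMod p) (v := n) (m := n) (fun x => Ψ (patch p n A₀ x)) w hw1 ?_ ?_
      (2 ^ n) ?_ _ (fun c hc => (Finset.mem_filter.mp hc).2)
    · intro x hx
      obtain ⟨R, hR, hRc⟩ := hLc Ψ hΨ (patch p n A₀ x) hx
      refine ⟨Finset.univ.filter (fun b => code p n b ∈ R), ?_, ?_⟩
      · refine le_trans ?_ hR
        apply Finset.card_le_card_of_injOn (code p n)
        · intro b hb
          exact Finset.mem_coe.mpr (Finset.mem_filter.mp (Finset.mem_coe.mp hb)).2
        · intro b _ b' _ hbb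
          exact code_injective p n hbb
      · intro x' hx'
        apply hRc
        intro s hs
        by_cases hsc : ∃ b, code p n b = s
        · obtain ⟨b, rfl⟩ := hsc
          have h1 := hx' b (Finset.mem_filter.mpr ⟨Finset.mem_univ b, hs⟩)
          rw [Bool.eq_iff_iff, patch_code, patch_code]
          exact h1
        · unfold patch
          rw [if_neg hsc, if_neg hsc]
    · intro A hA hΨA
      have h1 : t.Accepts (patch p n A₀ (common A)) := (hLe _).mpr ⟨Ψ, hΨ, hΨA⟩
      rw [hcon (common A)] at h1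
      exact not_val_common p n A hA h1
    · rw [hC, hQ]
  -- but every graph is accepted
  have hall : (Finset.univ : Finset (Finset (Fin n) → Fin n → ZMod p)) ⊆
      L.toFinset.biUnion (fun Ψ => Finset.univ.filter (fun c => Ψ (patch p n A₀ (graph c)))) := by
    intro c _
    have h1 : t.Accepts (patch p n A₀ (graph c)) := (hcon (graph c)).mpr (val_graph p n c)
    obtain ⟨Ψ, hΨ, h2⟩ := (hLe _).mp h1
    rw [Finset.mem_biUnion]
    exact ⟨Ψ, List.mem_toFinset.mpr hΨ, Finset.mem_filter.mpr ⟨Finset.mem_univ c, h2⟩⟩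
  have h3 := Finset.card_le_card hall
  rw [Finset.card_univ, hC] at h3
  have h4 : (L.toFinset.biUnion (fun Ψ => Finset.univ.filter
      (fun c : Finset (Fin n) → Fin n → ZMod p => Ψ (patch p n A₀ (graph c))))).card ≤
      2 ^ w * w ^ (2 ^ n) := by
    refine le_trans (Finset.card_biUnion_le_card_mul _ _ (w ^ (2 ^ n)) ?_) ?_
    · intro Ψ hΨ
      exact hfew Ψ (List.mem_toFinset.mp hΨ)
    · apply Nat.mul_le_mul_right
      refine le_trans (List.toFinset_card_le L) (le_trans hL ?_)
      exact Nat.pow_le_pow_right (by norm_num) (by omega)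
  have h5 : 2 ^ w * w ^ (2 ^ n) < 2 ^ (2 ^ n) * (2 ^ n) ^ (2 ^ n) := by
    have a1 : 2 ^ w < 2 ^ (2 ^ n) := Nat.pow_lt_pow_right (by norm_num) (by omega)
    have a2 : w ^ (2 ^ n) ≤ (2 ^ n) ^ (2 ^ n) := Nat.pow_le_pow_left (by omega) _
    have a3 : 0 < (2 ^ n) ^ (2 ^ n) := by positivity
    calc 2 ^ w * w ^ (2 ^ n) ≤ 2 ^ w * (2 ^ n) ^ (2 ^ n) := Nat.mul_le_mul_left _ a2
      _ < 2 ^ (2 ^ n) * (2 ^ n) ^ (2 ^ n) := Nat.mul_lt_mul_of_pos_right a1 a3
  have h6 : 2 ^ (2 ^ n) * (2 ^ n) ^ (2 ^ n) ≤ (p ^ n) ^ (2 ^ n) := by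
    rw [← Nat.mul_pow]
    apply Nat.pow_le_pow_left
    calc 2 * 2 ^ n ≤ 2 ^ n * 2 ^ n := Nat.mul_le_mul_right _ h2n
      _ = 4 ^ n := by rw [← Nat.mul_pow]
      _ ≤ p ^ n := Nat.pow_le_pow_left hp _
  omega

end Code

/-! ### Building nondeterministic trees -/

namespace NTree

theorem exists_sum (c : ℕ) : ∀ (k : ℕ) (L : List NTree), L ≠ [] → L.length ≤ 2 ^ k →
    (∀ t ∈ L, t.time ≤ c) →
    ∃ t : NTree, t.time ≤ k + c ∧ ∀ A b, t.count A b = (L.map (fun t => t.count A b)).sum := by
  intro k
  induction k with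
  | zero =>
    intro L hne hL hc
    rw [pow_zero] at hL
    match L, hne, hL, hc with
    | [t], _, _, hc =>
      exact ⟨t, by simpa using hc t (by simp), fun A b => by simp⟩
    | t :: t' :: L, _, hL, _ =>
      simp only [List.length_cons] at hL
      omega
  | succ k ih =>
    intro L hne hL hc
    by_cases hd : L.drop (2 ^ k) = []
    · have hlen : L.length ≤ 2 ^ k := List.drop_eq_nil_iff.mp hd
      obtain ⟨t, ht, h2⟩ := ih L hne hlen hc
      exact ⟨t, by omega, h2⟩
    · have htake : L.take (2 ^ k) ≠ [] := by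
        intro h
        rw [List.take_eq_nil_iff] at h
        rcases h with h | h
        · have : 0 < 2 ^ k := by positivity
          omega
        · exact hne h
      obtain ⟨t₀, h0, h0'⟩ := ih (L.take (2 ^ k)) htake (by rw [List.length_take]; omega)
        (fun t ht => hc t (List.mem_of_mem_take ht))
      obtain ⟨t₁, h1, h1'⟩ := ih (L.drop (2 ^ k)) hd
        (by rw [List.length_drop]; rw [pow_succ] at hL; omega)
        (fun t ht => hc t (List.mem_of_mem_drop ht))
      refine ⟨guess t₀ t₁, ?_, ?_⟩
      · simp only [time]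
        omega
      · intro A b
        simp only [count]
        rw [h0', h1', ← List.sum_append, ← List.map_append, List.take_append_drop]

theorem exists_sum_fintype {α : Type*} [Fintype α] [Nonempty α] (F : α → NTree) (c k : ℕ)
    (hk : Fintype.card α ≤ 2 ^ k) (hc : ∀ a, (F a).time ≤ c) :
    ∃ t : NTree, t.time ≤ k + c ∧ ∀ A b, t.count A b = ∑ a, (F a).count A b := by
  have hne : (Finset.univ : Finset α).toList.map F ≠ [] := by
    intro h
    rw [List.map_eq_nil_iff, Finset.toList_eq_nil] at h
    exact (Finset.univ_nonempty (α := α)).ne_empty h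
  have hlen : ((Finset.univ : Finset α).toList.map F).length ≤ 2 ^ k := by
    rw [List.length_map, Finset.length_toList]
    exact hk
  have hct : ∀ t ∈ (Finset.univ : Finset α).toList.map F, t.time ≤ c := by
    intro t ht
    obtain ⟨a, _, rfl⟩ := List.mem_map.mp ht
    exact hc a
  obtain ⟨t, h1, h2⟩ := exists_sum c k _ hne hlen hct
  refine ⟨t, h1, ?_⟩
  intro A b
  rw [h2, List.map_map]
  exact Finset.sum_map_toList Finset.univ (fun a => (F a).count A b)

theorem exists_block (N k : ℕ) (hN : 1 ≤ N) (hk : N ≤ 2 ^ k) (v : Bool) :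
    ∃ t : NTree, t.time ≤ k ∧ ∀ A b, t.count A b = if v = b then N else 0 := by
  have : Nonempty (Fin N) := ⟨⟨0, hN⟩⟩
  obtain ⟨t, h1, h2⟩ := exists_sum_fintype (fun _ : Fin N => leaf v) 0 k
    (by rw [Fintype.card_fin]; exact hk) (fun _ => le_rfl)
  refine ⟨t, by simpa using h1, ?_⟩
  intro A b
  rw [h2]
  simp only [count, Finset.sum_const, Finset.card_univ, Fintype.card_fin, smul_eq_mul]
  by_cases hv : v = b <;> simp [hv]

/-- test a conjunction of oracle literals, continue with `tp` if all hold, else with `tm` -/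
def conj (tp tm : NTree) : List (List Bool × Bool) → NTree
  | [] => tp
  | (s, true) :: L => query s tm (conj tp tm L)
  | (s, false) :: L => query s (conj tp tm L) tm

theorem count_conj (tp tm : NTree) (A : Oracle) (b : Bool) (L : List (List Bool × Bool)) :
    (conj tp tm L).count A b =
      if (∀ z ∈ L, A z.1 = z.2) then tp.count A b else tm.count A b := by
  induction L with
  | nil => simp [conj]
  | cons z L ih =>
    obtain ⟨s, v⟩ := z
    cases v
    · by_cases hs : A s = true
      · rw [conj, count, if_pos hs, if_neg]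
        intro h
        have := h (s, false) (List.mem_cons_self ..)
        simp only at this
        rw [hs] at this
        exact absurd this (by decide)
      · rw [conj, count, if_neg hs, ih]
        have hs' : A s = false := by simpa using hs
        congr 1
        apply propext
        constructor
        · intro h z hz
          rcases List.mem_cons.mp hz with rfl | hz
          · exact hs'
          · exact h z hz
        · intro h z hz
          exact h z (List.mem_cons_of_mem _ hz)
    · by_cases hs : A s = true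
      · rw [conj, count, if_pos hs, ih]
        congr 1
        apply propext
        constructor
        · intro h z hz
          rcases List.mem_cons.mp hz with rfl | hz
          · exact hs
          · exact h z hz
        · intro h z hz
          exact h z (List.mem_cons_of_mem _ hz)
      · rw [conj, count, if_neg hs, if_neg]
        intro h
        exact hs (h (s, true) (List.mem_cons_self ..))

theorem time_conj (tp tm : NTree) (l c : ℕ) (hp : tp.time ≤ c) (hm : tm.time ≤ c)
    (L : List (List Bool × Bool)) (hL : ∀ z ∈ L, z.1.length = l) :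
    (conj tp tm L).time ≤ L.length * (l + 1) + c := by
  induction L with
  | nil => simpa [conj] using hp
  | cons z L ih =>
    have h1 := ih (fun z hz => hL z (List.mem_cons_of_mem _ hz))
    have h2 := hL z (List.mem_cons_self ..)
    obtain ⟨s, v⟩ := z
    simp only at h2
    rw [List.length_cons]
    cases v
    · rw [conj, time, h2]
      have : (L.length + 1) * (l + 1) = L.length * (l + 1) + (l + 1) := by ring
      omega
    · rw [conj, time, h2]
      have : (L.length + 1) * (l + 1) = L.length * (l + 1) + (l + 1) := by ring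
      omega

/-- one accepting and one rejecting path -/
def neutral : NTree := guess (leaf true) (leaf false)

theorem count_neutral (A : Oracle) (b : Bool) : neutral.count A b = 1 := by
  cases b <;> rfl

end NTree

/-! ### The tests -/

section Tests

set_option synthInstance.maxSize 1024

variable (p n : ℕ)

/-- the index set of all tests: membership of a position, two values at one point, and the
interpolation rule on a line -/
abbrev Idx : Type :=
  Pos p n ⊕ ((Fin n → ZMod p) × (Fin n → ZMod p) × (Fin n → ZMod p)) ⊕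
    ((Fin n → ZMod p) × Fin n × ZMod p × ZMod p × ZMod p × (Fin n → ZMod p) × (Fin n → ZMod p))

/-- the oracle literals of a test -/
def lits : Idx p n → List (List Bool × Bool)
  | Sum.inl b => [(code p n b, true)]
  | Sum.inr (Sum.inl (u, a, b)) => [(code p n (u, a), true), (code p n (u, b), true)]
  | Sum.inr (Sum.inr (u, i, s, t, r, a, b)) =>
      [(code p n (Function.update u i s, a), true), (code p n (Function.update u i t, b), true),
        (code p n (Function.update u i (s + r * (t - s)), a + r • (b - a)), false)]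

theorem lits_length (θ : Idx p n) : (lits p n θ).length ≤ 3 := by
  rcases θ with b | ⟨u, a, b⟩ | ⟨u, i, s, t, r, a, b⟩ <;> simp [lits]

theorem lits_code (θ : Idx p n) : ∀ z ∈ lits p n θ, z.1.length = 2 * n * p := by
  rcases θ with b | ⟨u, a, b⟩ | ⟨u, i, s, t, r, a, b⟩ <;> simp [lits, code_length]

/-- the test is trivial (never counted) -/
def Triv : Idx p n → Prop
  | Sum.inl _ => False
  | Sum.inr (Sum.inl (_, a, b)) => a = b
  | Sum.inr (Sum.inr _) => False

/-- the test succeeds with oracle `A` -/
def Sat (A : Oracle) (θ : Idx p n) : Prop := ¬ Triv p n θ ∧ ∀ z ∈ lits p n θ, A z.1 = z.2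

/-- the weight of a successful test -/
def weight (M : ℕ) : Idx p n → ℕ
  | Sum.inl _ => 4 * M
  | Sum.inr _ => 4 * M * p ^ n

theorem bad_iff [Fact p.Prime] (A : Oracle) :
    Bad (boxOf p n A) ↔ ∃ θ, Sat p n A (Sum.inr θ) := by
  constructor
  · rintro (⟨u, a, b, hab, h1, h2⟩ | ⟨u, i, s, t, r, a, b, h1, h2, h3⟩)
    · refine ⟨Sum.inl (u, a, b), hab, ?_⟩
      intro z hz
      simp only [lits, List.mem_cons, List.not_mem_nil, or_false] at hz
      rcases hz with rfl | rfl
      · exact h1
      · exact h2
    · refine ⟨Sum.inr (u, i, s, t, r, a, b), fun h => h, ?_⟩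
      intro z hz
      simp only [lits, List.mem_cons, List.not_mem_nil, or_false] at hz
      rcases hz with rfl | rfl | rfl
      · exact h1
      · exact h2
      · exact Bool.eq_false_iff.mpr h3
  · rintro ⟨θ, h0, h⟩
    rcases θ with ⟨u, a, b⟩ | ⟨u, i, s, t, r, a, b⟩
    · exact Or.inl ⟨u, a, b, h0, h (code p n (u, a), true) (by simp [lits]),
        h (code p n (u, b), true) (by simp [lits])⟩
    · refine Or.inr ⟨u, i, s, t, r, a, b,
        h (code p n (Function.update u i s, a), true) (by simp [lits]),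
        h (code p n (Function.update u i t, b), true) (by simp [lits]), ?_⟩
      intro hc
      have h3 := h (code p n (Function.update u i (s + r * (t - s)), a + r • (b - a)), false)
        (by simp [lits])
      have hc' : A (code p n (Function.update u i (s + r * (t - s)), a + r • (b - a))) = true := hc
      simp only at h3
      rw [h3] at hc'
      exact absurd hc' (by decide)

theorem sat_inl (A : Oracle) (b : Pos p n) :
    Sat p n A (Sum.inl b) ↔ b ∈ boxOf p n A := by
  constructor
  · rintro ⟨_, h⟩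
    exact h (code p n b, true) (by simp [lits])
  · intro h
    refine ⟨fun h => h, ?_⟩
    intro z hz
    simp only [lits, List.mem_cons, List.not_mem_nil, or_false] at hz
    rw [hz]
    exact h

theorem bernoulli (p v : ℕ) (hp : 1 ≤ p) : p ^ (v + 1) ≤ p * (p - 1) ^ v + v * p ^ v := by
  induction v with
  | zero => simp
  | succ v ih =>
    obtain ⟨q, rfl⟩ : ∃ q, p = q + 1 := ⟨p - 1, by omega⟩
    simp only [Nat.add_sub_cancel] at ih ⊢
    have h1 : q ^ (v + 1) ≤ (q + 1) ^ (v + 1) := Nat.pow_le_pow_left (by omega) _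
    have h2 : (q + 1) ^ (v + 1 + 1) = (q + 1) * (q + 1) ^ (v + 1) := by ring
    have h3 : (q + 1) * ((q + 1) * q ^ v + v * (q + 1) ^ v) =
        (q + 1) * q ^ (v + 1) + (q + 1) * q ^ v + v * (q + 1) ^ (v + 1) := by ring
    have h4 : q ^ v ≤ (q + 1) ^ v := Nat.pow_le_pow_left (by omega) _
    have h5 : (q + 1) * q ^ v ≤ (q + 1) ^ (v + 1) := by
      calc (q + 1) * q ^ v ≤ (q + 1) * (q + 1) ^ v := Nat.mul_le_mul_left _ h4
        _ = (q + 1) ^ (v + 1) := by ring
    calc (q + 1) ^ (v + 1 + 1) = (q + 1) * (q + 1) ^ (v + 1) := h2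
      _ ≤ (q + 1) * ((q + 1) * q ^ v + v * (q + 1) ^ v) := Nat.mul_le_mul_left _ ih
      _ = (q + 1) * q ^ (v + 1) + (q + 1) * q ^ v + v * (q + 1) ^ (v + 1) := h3
      _ ≤ (q + 1) * q ^ (v + 1) + (q + 1) ^ (v + 1) + v * (q + 1) ^ (v + 1) := by omega
      _ = (q + 1) * q ^ (v + 1) + (v + 1) * (q + 1) ^ (v + 1) := by ring

/-- in the negative case few positions belong to the black box -/
theorem sixteen (hn : 1 ≤ n) (hp : 16 * n ≤ p) (X : ℕ) (hX : X + (p - 1) ^ n ≤ p ^ n) :
    16 * X ≤ p ^ n := by
  have hp1 : 1 ≤ p := by omega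
  have h := bernoulli p n hp1
  -- p * X ≤ n * p ^ n
  have h1 : p * X ≤ n * p ^ n := by
    have h2 : p * (X + (p - 1) ^ n) ≤ p * p ^ n := Nat.mul_le_mul_left _ hX
    have h3 : p * p ^ n = p ^ (n + 1) := by ring
    have h4 : p * (X + (p - 1) ^ n) = p * X + p * (p - 1) ^ n := by ring
    omega
  have h5 : n * (16 * X) ≤ n * p ^ n := by
    calc n * (16 * X) = 16 * n * X := by ring
      _ ≤ p * X := Nat.mul_le_mul_right _ hp
      _ ≤ n * p ^ n := h1
  exact Nat.le_of_mul_le_mul_left h5 hn

open Classical in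
theorem exists_tree [Fact p.Prime] (hn : 1 ≤ n) (hp : 16 * n ≤ p) (hp' : p ≤ 32 * n) :
    ∃ (T : NTree) (g : ℕ), T.time ≤ 200 * (n + 1) ^ 2 ∧ 0 < g ∧ ∀ A : Oracle,
      (Val p n (boxOf p n A) → 3 * T.rej A < T.acc A ∧ 2 * g ≤ T.acc A) ∧
      (¬ Val p n (boxOf p n A) → 3 * T.acc A < T.rej A ∧ 2 * T.acc A ≤ g) := by
  have hp0 : 0 < p := (Fact.out : p.Prime).pos
  have hpn : 0 < p ^ n := by positivity
  have hpexp : p ≤ 2 ^ (n + 5) := by
    calc p ≤ 32 * n := hp'
      _ ≤ 32 * 2 ^ n := Nat.mul_le_mul_left _ (Nat.lt_two_pow_self).le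
      _ = 2 ^ (n + 5) := by rw [pow_add]; norm_num [mul_comm]
  have hpj : ∀ j, p ^ j ≤ 2 ^ ((n + 5) * j) := by
    intro j
    rw [pow_mul]
    exact Nat.pow_le_pow_left hpexp j
  obtain ⟨k1, hk1⟩ : ∃ k1, k1 = n + 2 + (n + 5) * (3 * n + 3) := ⟨_, rfl⟩
  obtain ⟨N, hN⟩ : ∃ N, N = Fintype.card (Idx p n) := ⟨_, rfl⟩
  have hcard : N + 1 ≤ 2 ^ k1 := by
    have hQ : Fintype.card (Fin n → ZMod p) = p ^ n := by
      rw [Fintype.card_fun, ZMod.card, Fintype.card_fin]
    have e1 : N = p ^ n * p ^ n + (p ^ n * (p ^ n * p ^ n) +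
        p ^ n * (n * (p * (p * (p * (p ^ n * p ^ n)))))) := by
      rw [hN, Fintype.card_sum, Fintype.card_sum, Fintype.card_prod, Fintype.card_prod,
        Fintype.card_prod, Fintype.card_prod, Fintype.card_prod, Fintype.card_prod,
        Fintype.card_prod, Fintype.card_prod, Fintype.card_prod, hQ, ZMod.card, Fintype.card_fin]
    have e2 : p ^ (3 * n + 3) = p ^ n * p ^ n * p ^ n * (p * p * p) := by ring
    have e3 : p ^ n * p ^ n ≤ p ^ (3 * n + 3) := by
      rw [← pow_add]; exact Nat.pow_le_pow_right hp0 (by omega)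
    have e4 : p ^ n * (p ^ n * p ^ n) ≤ p ^ (3 * n + 3) := by
      rw [← pow_add, ← pow_add]; exact Nat.pow_le_pow_right hp0 (by omega)
    have e5 : p ^ n * (n * (p * (p * (p * (p ^ n * p ^ n))))) = n * p ^ (3 * n + 3) := by
      rw [e2]; ring
    have e6 : 1 ≤ p ^ (3 * n + 3) := Nat.one_le_pow _ _ hp0
    have e7 : n + 3 ≤ 2 ^ (n + 2) := by
      have : n < 2 ^ n := Nat.lt_two_pow_self
      rw [pow_add]; omega
    calc N + 1 ≤ (n + 3) * p ^ (3 * n + 3) := by
          rw [e1, e5]
          have : (n + 3) * p ^ (3 * n + 3) = p ^ (3 * n + 3) + (p ^ (3 * n + 3) +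
            n * p ^ (3 * n + 3)) + p ^ (3 * n + 3) := by ring
          omega
      _ ≤ 2 ^ (n + 2) * 2 ^ ((n + 5) * (3 * n + 3)) := Nat.mul_le_mul e7 (hpj _)
      _ = 2 ^ k1 := by rw [hk1, ← pow_add]
  obtain ⟨M, hM⟩ : ∃ M, M = 2 ^ (k1 + 4) := ⟨_, rfl⟩
  have hM12 : 12 * N < M := by
    rw [hM, pow_add]; omega
  have hM0 : 0 < M := by omega
  obtain ⟨k2, hk2⟩ : ∃ k2, k2 = 2 + (k1 + 4) + (n + 5) * n := ⟨_, rfl⟩
  have hW : 4 * M * p ^ n ≤ 2 ^ k2 := by
    calc 4 * M * p ^ n ≤ 2 ^ 2 * 2 ^ (k1 + 4) * 2 ^ ((n + 5) * n) :=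
          Nat.mul_le_mul (by rw [hM]; norm_num) (hpj n)
      _ = 2 ^ k2 := by rw [hk2, ← pow_add, ← pow_add]
  have hwt : ∀ θ : Idx p n, 1 ≤ weight p n M θ ∧ weight p n M θ ≤ 2 ^ k2 := by
    intro θ
    have h1 : 4 * M ≤ 4 * M * p ^ n := Nat.le_mul_of_pos_right _ hpn
    rcases θ with b | θ
    · simp only [weight]; omega
    · simp only [weight]; omega
  -- the blocks
  choose blk hblk1 hblk2 using fun θ : Idx p n =>
    NTree.exists_block (weight p n M θ) k2 (hwt θ).1 (hwt θ).2 true
  obtain ⟨rb, hrb1, hrb2⟩ := NTree.exists_block (M * p ^ n) k2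
    (Nat.mul_pos hM0 hpn) (le_trans (by nlinarith) hW) false
  set F : Option (Idx p n) → NTree := fun o => match o with
    | none => rb
    | some θ => if Triv p n θ then NTree.neutral
        else NTree.conj (blk θ) NTree.neutral (lits p n θ) with hF
  have hk2pos : 1 ≤ k2 := by omega
  have hneut : NTree.neutral.time ≤ k2 := by
    have : NTree.neutral.time = 1 := rfl
    omega
  have hFt : ∀ o, (F o).time ≤ 3 * (2 * n * p + 1) + k2 := by
    intro o
    rcases o with _ | θ
    · show rb.time ≤ _
      omega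
    · show (if Triv p n θ then NTree.neutral
        else NTree.conj (blk θ) NTree.neutral (lits p n θ)).time ≤ _
      split_ifs
      · omega
      · refine le_trans (NTree.time_conj _ _ (2 * n * p) k2 (hblk1 θ) hneut _ (lits_code p n θ)) ?_
        exact Nat.add_le_add_right (Nat.mul_le_mul_right _ (lits_length p n θ)) _
  obtain ⟨T, hT1, hT2⟩ := NTree.exists_sum_fintype F (3 * (2 * n * p + 1) + k2) k1
    (by rw [Fintype.card_option, ← hN]; exact hcard) hFt
  have hcountF : ∀ (A : Oracle) (θ : Idx p n) (b : Bool), (F (some θ)).count A b =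
      if Sat p n A θ then (if true = b then weight p n M θ else 0) else 1 := by
    intro A θ b
    show (if Triv p n θ then NTree.neutral
        else NTree.conj (blk θ) NTree.neutral (lits p n θ)).count A b = _
    by_cases ht : Triv p n θ
    · rw [if_pos ht, NTree.count_neutral, if_neg (fun h => h.1 ht)]
    · rw [if_neg ht, NTree.count_conj, NTree.count_neutral, hblk2]
      by_cases hl : ∀ z ∈ lits p n θ, A z.1 = z.2
      · have hS : Sat p n A θ := ⟨ht, hl⟩
        rw [if_pos hl, if_pos hS]
      · have hS : ¬ Sat p n A θ := fun h => hl h.2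
        rw [if_neg hl, if_neg hS]
  have hacc : ∀ A, T.acc A = ∑ θ : Idx p n, if Sat p n A θ then weight p n M θ else 1 := by
    intro A
    unfold NTree.acc
    rw [hT2, Fintype.sum_option]
    have : (F none).count A true = 0 := by
      show rb.count A true = 0
      rw [hrb2]; simp
    rw [this, zero_add]
    apply Finset.sum_congr rfl
    intro θ _
    rw [hcountF]
    simp
  have hrej : ∀ A, T.rej A = M * p ^ n + ∑ θ : Idx p n, if Sat p n A θ then 0 else 1 := by
    intro A
    unfold NTree.rej
    rw [hT2, Fintype.sum_option]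
    have : (F none).count A false = M * p ^ n := by
      show rb.count A false = M * p ^ n
      rw [hrb2]; simp
    rw [this]
    congr 1
    apply Finset.sum_congr rfl
    intro θ _
    rw [hcountF]
    simp
  have hrejle : ∀ A, T.rej A ≤ M * p ^ n + N := by
    intro A
    rw [hrej]
    apply Nat.add_le_add_left
    calc (∑ θ : Idx p n, if Sat p n A θ then 0 else 1) ≤ ∑ θ : Idx p n, 1 := by
          apply Finset.sum_le_sum
          intro θ _
          split_ifs <;> omega
      _ = N := by rw [Finset.sum_const, Finset.card_univ, smul_eq_mul, mul_one, hN]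
  have hMN : 12 * N < M * p ^ n := lt_of_lt_of_le hM12 (Nat.le_mul_of_pos_right _ hpn)
  refine ⟨T, 2 * (M * p ^ n), ?_, by positivity, ?_⟩
  · refine le_trans hT1 ?_
    have h1 : 2 * n * p ≤ 64 * n ^ 2 := by
      calc 2 * n * p ≤ 2 * n * (32 * n) := Nat.mul_le_mul_left _ hp'
        _ = 64 * n ^ 2 := by ring
    have h2 : k1 = 3 * n ^ 2 + 19 * n + 17 := by rw [hk1]; ring
    have h3 : k2 = 4 * n ^ 2 + 24 * n + 23 := by rw [hk2, h2]; ring
    have h4 : 200 * (n + 1) ^ 2 = 200 * n ^ 2 + 400 * n + 200 := by ring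
    rw [h3, h2, h4]
    omega
  · intro A
    set x : Finset (Pos p n) := Finset.univ.filter (fun b => b ∈ boxOf p n A) with hx
    have hxc : (x : Set (Pos p n)) = boxOf p n A := by
      ext b
      simp [hx]
    -- the contribution of the membership tests
    have hsplit : (∑ θ : Idx p n, if Sat p n A θ then weight p n M θ else 1) =
        (∑ b : Pos p n, if b ∈ boxOf p n A then 4 * M else 1) +
        ∑ θ, if Sat p n A (Sum.inr θ) then 4 * M * p ^ n else 1 := by
      rw [Fintype.sum_sum_type]
      congr 1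
      apply Finset.sum_congr rfl
      intro b _
      by_cases hb : b ∈ boxOf p n A
      · rw [if_pos hb, if_pos ((sat_inl p n A b).mpr hb)]
        rfl
      · rw [if_neg hb, if_neg (fun h => hb ((sat_inl p n A b).mp h))]
    constructor
    · intro hval
      have hbig : 4 * M * p ^ n ≤ T.acc A := by
        rw [hacc, hsplit]
        by_cases hbad : Bad (boxOf p n A)
        · obtain ⟨θ, hθ⟩ := (bad_iff p n A).mp hbad
          refine le_trans ?_ (Nat.le_add_left _ _)
          refine le_trans (le_of_eq ?_) (Finset.single_le_sum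
            (f := fun θ => if Sat p n A (Sum.inr θ) then 4 * M * p ^ n else 1)
            (fun _ _ => Nat.zero_le _) (Finset.mem_univ θ))
          simp only [if_pos hθ]
        · have hfull : ∀ u, ∃ a, (u, a) ∈ x := by
            rcases hval with h | h
            · exact absurd h hbad
            · intro u
              obtain ⟨a, ha⟩ := h u
              exact ⟨a, by rw [hx, Finset.mem_filter]; exact ⟨Finset.mem_univ _, ha⟩⟩
          have hc : x.card = p ^ n := by
            rcases card_of_not_bad x (by rw [hxc]; exact hbad) with h | h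
            · rw [h.2, ZMod.card]
            · exact absurd hfull h.1
          refine le_trans ?_ (Nat.le_add_right _ _)
          calc 4 * M * p ^ n = ∑ b ∈ x, 4 * M := by
                rw [Finset.sum_const, hc, smul_eq_mul, mul_comm]
            _ = ∑ b ∈ x, (if b ∈ boxOf p n A then 4 * M else 1) := by
                apply Finset.sum_congr rfl
                intro b hb
                rw [hx, Finset.mem_filter] at hb
                rw [if_pos hb.2]
            _ ≤ ∑ b : Pos p n, (if b ∈ boxOf p n A then 4 * M else 1) :=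
                Finset.sum_le_sum_of_subset (Finset.subset_univ x)
      have h1 := hrejle A
      have h2 : 4 * M * p ^ n = 4 * (M * p ^ n) := by ring
      constructor <;> omega
    · intro hval
      have hbad : ¬ Bad (boxOf p n A) := fun h => hval (Or.inl h)
      have hnf : ¬ ∀ u, ∃ a, (u, a) ∈ x := by
        intro h
        apply hval
        right
        intro u
        obtain ⟨a, ha⟩ := h u
        rw [hx, Finset.mem_filter] at ha
        exact ⟨a, ha.2⟩
      have hc : x.card + (p - 1) ^ n ≤ p ^ n := by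
        rcases card_of_not_bad x (by rw [hxc]; exact hbad) with h | h
        · exact absurd h.1 hnf
        · have := h.2
          rwa [ZMod.card] at this
      have h16 := sixteen p n hn hp x.card hc
      have hsmall : T.acc A ≤ 4 * M * x.card + N := by
        rw [hacc, hsplit]
        have e1 : (∑ θ, if Sat p n A (Sum.inr θ) then 4 * M * p ^ n else 1) =
            ∑ θ : ((Fin n → ZMod p) × (Fin n → ZMod p) × (Fin n → ZMod p)) ⊕
    ((Fin n → ZMod p) × Fin n × ZMod p × ZMod p × ZMod p × (Fin n → ZMod p) ×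
      (Fin n → ZMod p)), 1 := by
          apply Finset.sum_congr rfl
          intro θ _
          rw [if_neg]
          intro h
          exact hbad ((bad_iff p n A).mpr ⟨θ, h⟩)
        have e2 : (∑ b : Pos p n, if b ∈ boxOf p n A then 4 * M else 1) ≤
            4 * M * x.card + Fintype.card (Pos p n) := by
          calc (∑ b : Pos p n, if b ∈ boxOf p n A then 4 * M else 1) ≤
              ∑ b : Pos p n, ((if b ∈ boxOf p n A then 4 * M else 0) + 1) := by
                apply Finset.sum_le_sum
                intro b _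
                split_ifs <;> omega
            _ = 4 * M * x.card + Fintype.card (Pos p n) := by
                rw [Finset.sum_add_distrib, ← Finset.sum_filter, Finset.sum_const,
                  Finset.sum_const, Finset.card_univ, smul_eq_mul, smul_eq_mul, mul_one, ← hx,
                  mul_comm]
        rw [e1, Finset.sum_const, Finset.card_univ, smul_eq_mul, mul_one]
        have e3 : N = Fintype.card (Pos p n) + Fintype.card
          (((Fin n → ZMod p) × (Fin n → ZMod p) × (Fin n → ZMod p)) ⊕
          ((Fin n → ZMod p) × Fin n × ZMod p × ZMod p × ZMod p × (Fin n → ZMod p) ×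
          (Fin n → ZMod p))) := by rw [hN, Fintype.card_sum]
        omega
      have hrejge : M * p ^ n ≤ T.rej A := by rw [hrej]; exact Nat.le_add_right _ _
      have h5 : 16 * (4 * M * x.card) ≤ 4 * (M * p ^ n) := by
        calc 16 * (4 * M * x.card) = 4 * M * (16 * x.card) := by ring
          _ ≤ 4 * M * p ^ n := Nat.mul_le_mul_left _ h16
          _ = 4 * (M * p ^ n) := by ring
      constructor <;> omega

end Tests

/-! ### Topology of the space of oracles -/

theorem NTree.count_local (t : NTree) : ∃ R : Finset (List Bool), ∀ A A' : Oracle,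
    (∀ s ∈ R, A s = A' s) → ∀ b, t.count A b = t.count A' b := by
  induction t with
  | leaf c => exact ⟨∅, fun A A' _ b => rfl⟩
  | guess t₀ t₁ ih₀ ih₁ =>
    obtain ⟨R₀, h₀⟩ := ih₀
    obtain ⟨R₁, h₁⟩ := ih₁
    refine ⟨R₀ ∪ R₁, fun A A' h b => ?_⟩
    simp only [NTree.count]
    rw [h₀ A A' (fun s hs => h s (Finset.mem_union_left _ hs)) b,
      h₁ A A' (fun s hs => h s (Finset.mem_union_right _ hs)) b]
  | query s t₀ t₁ ih₀ ih₁ =>
    obtain ⟨R₀, h₀⟩ := ih₀
    obtain ⟨R₁, h₁⟩ := ih₁
    refine ⟨insert s (R₀ ∪ R₁), fun A A' h b => ?_⟩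
    simp only [NTree.count]
    rw [h₀ A A' (fun s hs => h s (Finset.mem_insert_of_mem (Finset.mem_union_left _ hs))) b,
      h₁ A A' (fun s hs => h s (Finset.mem_insert_of_mem (Finset.mem_union_right _ hs))) b,
      h s (Finset.mem_insert_self _ _)]

theorem UTree.local (t : UTree) : ∃ R : Finset (List Bool), ∀ A A' : Oracle,
    (∀ s ∈ R, A s = A' s) → (t.Accepts A ↔ t.Accepts A') := by
  induction t with
  | leaf c => exact ⟨∅, fun A A' _ => Iff.rfl⟩
  | all t₀ t₁ ih₀ ih₁ =>
    obtain ⟨R₀, h₀⟩ := ih₀
    obtain ⟨R₁, h₁⟩ := ih₁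
    refine ⟨R₀ ∪ R₁, fun A A' h => ?_⟩
    simp only [UTree.Accepts]
    rw [h₀ A A' (fun s hs => h s (Finset.mem_union_left _ hs)),
      h₁ A A' (fun s hs => h s (Finset.mem_union_right _ hs))]
  | query s t₀ t₁ ih₀ ih₁ =>
    obtain ⟨R₀, h₀⟩ := ih₀
    obtain ⟨R₁, h₁⟩ := ih₁
    refine ⟨insert s (R₀ ∪ R₁), fun A A' h => ?_⟩
    simp only [UTree.Accepts]
    rw [h₀ A A' (fun s hs => h s (Finset.mem_insert_of_mem (Finset.mem_union_left _ hs))),
      h₁ A A' (fun s hs => h s (Finset.mem_insert_of_mem (Finset.mem_union_right _ hs))),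
      h s (Finset.mem_insert_self _ _)]

theorem S2Tree.local (t : S2Tree) : ∃ R : Finset (List Bool), ∀ A A' : Oracle,
    (∀ s ∈ R, A s = A' s) → (t.Accepts A ↔ t.Accepts A') := by
  induction t with
  | universal t => exact t.local
  | ex t₀ t₁ ih₀ ih₁ =>
    obtain ⟨R₀, h₀⟩ := ih₀
    obtain ⟨R₁, h₁⟩ := ih₁
    refine ⟨R₀ ∪ R₁, fun A A' h => ?_⟩
    simp only [S2Tree.Accepts]
    rw [h₀ A A' (fun s hs => h s (Finset.mem_union_left _ hs)),
      h₁ A A' (fun s hs => h s (Finset.mem_union_right _ hs))]
  | query s t₀ t₁ ih₀ ih₁ =>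
    obtain ⟨R₀, h₀⟩ := ih₀
    obtain ⟨R₁, h₁⟩ := ih₁
    refine ⟨insert s (R₀ ∪ R₁), fun A A' h => ?_⟩
    simp only [S2Tree.Accepts]
    rw [h₀ A A' (fun s hs => h s (Finset.mem_insert_of_mem (Finset.mem_union_left _ hs))),
      h₁ A A' (fun s hs => h s (Finset.mem_insert_of_mem (Finset.mem_union_right _ hs))),
      h s (Finset.mem_insert_self _ _)]

theorem isOpen_of_local (P : Oracle → Prop) (R : Finset (List Bool))
    (h : ∀ A A' : Oracle, (∀ s ∈ R, A s = A' s) → (P A ↔ P A')) : IsOpen {A | P A} := by
  rw [isOpen_iff_forall_mem_open]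
  intro A hA
  refine ⟨⋂ s ∈ R, {A' : Oracle | A' s = A s}, ?_, ?_, ?_⟩
  · intro A' hA'
    rw [Set.mem_iInter₂] at hA'
    exact (h A A' (fun s hs => (hA' s hs).symm)).mp hA
  · apply isOpen_biInter_finset
    intro s _
    have hc : Continuous (fun A' : Oracle => A' s) := continuous_apply s
    exact (isOpen_discrete ({A s} : Set Bool)).preimage hc
  · rw [Set.mem_iInter₂]
    intro s _
    rfl

/-! ### The theorem -/

/-- more than three quarters of the computation paths accept -/
def MostAccept (t : NTree) (A : Oracle) : Prop := 3 * t.total A < 4 * t.acc A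

/-- more than three quarters of the computation paths reject -/
def MostReject (t : NTree) (A : Oracle) : Prop := 3 * t.total A < 4 * t.rej A

theorem result :
    ∃ (T : ℕ → NTree) (g : ℕ → ℕ) (C : ℕ),
      (∀ n, (T n).time ≤ C * (n + 1) ^ 2) ∧
      (∀ n, 0 < g n) ∧
      (∀ n A, (MostAccept (T n) A ∧ 2 * g n ≤ (T n).acc A) ∨
        (MostReject (T n) A ∧ 2 * (T n).acc A ≤ g n)) ∧
      (∀ n, 1 ≤ n → ∀ U : S2Tree, U.depth < 2 ^ n →
        ∃ A, ¬ (U.Accepts A ↔ MostAccept (T n) A)) ∧
      (∀ U : ℕ → ℕ → S2Tree, (∀ k, ∃ᶠ n in atTop, (U k n).depth < 2 ^ n) →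
        ∀ᶠ A in residual Oracle, ∀ k, ∃ n, ¬ ((U k n).Accepts A ↔ MostAccept (T n) A)) := by
  classical
  have hprime : ∀ n, 1 ≤ n → ∃ p, p.Prime ∧ 16 * n < p ∧ p ≤ 32 * n := by
    intro n hn
    obtain ⟨p, h1, h2, h3⟩ := Nat.exists_prime_lt_and_le_two_mul (16 * n) (by omega)
    exact ⟨p, h1, h2, by omega⟩
  choose! p hp1 hp2 hp3 using hprime
  have htree : ∀ n, ∃ (T : NTree) (g : ℕ), T.time ≤ 200 * (n + 1) ^ 2 ∧ 0 < g ∧
      (∀ A, (MostAccept T A ∧ 2 * g ≤ T.acc A) ∨ (MostReject T A ∧ 2 * T.acc A ≤ g)) ∧
      (1 ≤ n → ∀ (A₀ : Oracle) (U : S2Tree), U.depth < 2 ^ n → ∃ A : Oracle,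
        (∀ s : List Bool, s.length < n → A s = A₀ s) ∧ ¬ (U.Accepts A ↔ MostAccept T A)) := by
    intro n
    by_cases hn : 1 ≤ n
    swap
    · refine ⟨NTree.guess (NTree.leaf true) (NTree.leaf true), 1, ?_, one_pos, ?_,
        fun h => absurd h hn⟩
      · have e : n = 0 := by omega
        subst e
        simp [NTree.time]
      · intro A
        left
        simp [MostAccept, NTree.total, NTree.acc, NTree.rej, NTree.count]
    have : Fact (p n).Prime := ⟨hp1 n hn⟩
    have h16 := hp2 n hn
    have h32 := hp3 n hn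
    obtain ⟨T, g, h1, h2, h3⟩ := exists_tree (p n) n hn h16.le h32
    have hiff : ∀ A, MostAccept T A ↔ Val (p n) n (boxOf (p n) n A) := by
      intro A
      constructor
      · intro h
        by_contra hv
        have h4 := ((h3 A).2 hv).1
        unfold MostAccept NTree.total at h
        omega
      · intro hv
        have h4 := ((h3 A).1 hv).1
        unfold MostAccept NTree.total
        omega
    refine ⟨T, g, h1, h2, ?_, ?_⟩
    · intro A
      by_cases hv : Val (p n) n (boxOf (p n) n A)
      · exact Or.inl ⟨(hiff A).mpr hv, ((h3 A).1 hv).2⟩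
      · right
        have h4 := (h3 A).2 hv
        refine ⟨?_, h4.2⟩
        unfold MostReject NTree.total
        omega
    · intro _ A₀ U hU
      obtain ⟨x, hx⟩ := lower (p n) n hn (by omega) A₀ U hU
      refine ⟨patch (p n) n A₀ x, ?_, ?_⟩
      · intro s hs
        apply patch_of_not
        have : n ≤ 2 * n * p n := by
          calc n ≤ 2 * n := by omega
            _ ≤ 2 * n * p n := Nat.le_mul_of_pos_right _ (by omega)
        omega
      · rw [hiff, boxOf_patch]
        exact hx
  choose T g ht hg hprom hlow using htree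
  refine ⟨T, g, 200, ht, hg, hprom, ?_, ?_⟩
  · intro n hn U hU
    obtain ⟨A, _, hA⟩ := hlow n hn (fun _ => false) U hU
    exact ⟨A, hA⟩
  · intro U hU
    rw [eventually_countable_forall]
    intro k
    have hopen : IsOpen {A : Oracle | ∃ n, ¬ ((U k n).Accepts A ↔ MostAccept (T n) A)} := by
      have e : {A : Oracle | ∃ n, ¬ ((U k n).Accepts A ↔ MostAccept (T n) A)} =
          ⋃ n, {A : Oracle | ¬ ((U k n).Accepts A ↔ MostAccept (T n) A)} := by
        ext A
        simp
      rw [e]
      apply isOpen_iUnion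
      intro n
      obtain ⟨R₁, h₁⟩ := (U k n).local
      obtain ⟨R₂, h₂⟩ := (T n).count_local
      apply isOpen_of_local _ (R₁ ∪ R₂)
      intro A A' h
      have e1 := h₁ A A' (fun s hs => h s (Finset.mem_union_left _ hs))
      have e2 := h₂ A A' (fun s hs => h s (Finset.mem_union_right _ hs))
      have e3 : MostAccept (T n) A ↔ MostAccept (T n) A' := by
        unfold MostAccept NTree.total NTree.acc NTree.rej
        rw [e2 true, e2 false]
      rw [e1, e3]
    have hdense : Dense {A : Oracle | ∃ n, ¬ ((U k n).Accepts A ↔ MostAccept (T n) A)} := by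
      rw [dense_iff_inter_open]
      intro O hO hne
      obtain ⟨A₀, hA₀⟩ := hne
      obtain ⟨I, V, hV, hVO⟩ := isOpen_pi_iff.mp hO A₀ hA₀
      obtain ⟨n, hn, hUn⟩ := (frequently_atTop.mp (hU k)) (1 + I.sup List.length)
      obtain ⟨A, hA, hA'⟩ := hlow n (by omega) A₀ (U k n) hUn
      refine ⟨A, hVO ?_, n, hA'⟩
      intro s hs
      have hs' : s.length ≤ I.sup List.length := Finset.le_sup (f := List.length) hs
      rw [hA s (by omega)]
      exact (hV s hs).2
    exact residual_of_dense_open hopen hdense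


end Pool.Agent.Results.MP_210cfe_lc.RobustSeparation
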